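import Pool.Agent.H92.Frog.Basic

/-!
# From a uniform bound for the truncated models to transience
-/

set_option autoImplicit false

open MeasureTheory ProbabilityTheory
open scoped ENNReal

namespace Pool.Agent.H73.Frog

open Pool.Agent.H92.Frog

section det

variable {Ω : Type} (S : V → ℕ → Ω → V)

/-- The frogs awake after at most `n` generations in the truncated model. -/
def An (K : ℕ) : ℕ → Ω → Set V
  | 0, _ => {[]}
  | n + 1, ω => {x | ∃ v k, v ∈ An K n ω ∧ (∀ j < k, (S v j ω).length ≤ K) ∧ S v k ω = x}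

/-- The frogs awake in the truncated model. -/
def Aw (K : ℕ) (ω : Ω) : Set V := {x | ∃ n, x ∈ An S K n ω}

variable {S}

theorem Aw_closed {K : ℕ} {ω : Ω} {v : V} (hv : v ∈ Aw S K ω) {k : ℕ}
    (hk : ∀ j < k, (S v j ω).length ≤ K) : S v k ω ∈ Aw S K ω := by
  obtain ⟨n, hn⟩ := hv
  exact ⟨n + 1, v, k, hn, hk, rfl⟩

theorem Aw_root {K : ℕ} {ω : Ω} : [] ∈ Aw S K ω := ⟨0, rfl⟩

theorem Aw_min {K : ℕ} {ω : Ω} {A : Set V} (h0 : [] ∈ A)
    (hA : ∀ v ∈ A, ∀ k, (∀ j < k, (S v j ω).length ≤ K) → S v k ω ∈ A) :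
    Aw S K ω ⊆ A := by
  rintro x ⟨n, hn⟩
  induction n generalizing x with
  | zero => rw [show x = [] from hn]; exact h0
  | succ n ih =>
    obtain ⟨v, k, hv, hk, rfl⟩ := hn
    exact hA v (ih hv) k hk

theorem mem_VK {K : ℕ} {ω : Ω} {p : V × ℕ} : p ∈ VK S K ω ↔
    p.1 ∈ Aw S K ω ∧ (∀ j ≤ p.2, (S p.1 j ω).length ≤ K) ∧ S p.1 p.2 ω = [] := by
  constructor
  · rintro ⟨h1, h2, h3⟩
    exact ⟨h1 _ Aw_root fun v hv k hk => Aw_closed hv hk, h2, h3⟩
  · rintro ⟨h1, h2, h3⟩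
    exact ⟨fun A hA0 hA => Aw_min hA0 hA h1, h2, h3⟩

theorem Aw_mono {K L : ℕ} (h : K ≤ L) (ω : Ω) : Aw S K ω ⊆ Aw S L ω :=
  Aw_min Aw_root fun _ hv _ hk => Aw_closed hv fun j hj => (hk j hj).trans h

theorem VK_mono (ω : Ω) : Monotone fun K => VK S K ω := by
  intro K L h p hp
  rw [mem_VK] at hp ⊢
  exact ⟨Aw_mono h ω hp.1, fun j hj => (hp.2.1 j hj).trans h, hp.2.2⟩

theorem exists_len (v : V) (k : ℕ) (ω : Ω) : ∃ L, ∀ j ≤ k, (S v j ω).length ≤ L := by
  induction k with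
  | zero => exact ⟨(S v 0 ω).length, fun j hj => by rw [Nat.le_zero.mp hj]⟩
  | succ k ih =>
    obtain ⟨L, hL⟩ := ih
    refine ⟨max L (S v (k + 1) ω).length, fun j hj => ?_⟩
    rcases Nat.lt_or_ge j (k + 1) with h | h
    · exact (hL j (by omega)).trans (le_max_left _ _)
    · rw [show j = k + 1 by omega]; exact le_max_right _ _

theorem VInf_subset (ω : Ω) : VInf S ω ⊆ ⋃ K, VK S K ω := by
  rintro ⟨v, k⟩ ⟨h1, h2⟩
  have hv : v ∈ ⋃ K, Aw S K ω := by
    refine h1 _ (Set.mem_iUnion.mpr ⟨0, Aw_root⟩) ?_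
    intro u hu j
    obtain ⟨K, hK⟩ := Set.mem_iUnion.mp hu
    obtain ⟨L, hL⟩ := exists_len (S := S) u j ω
    refine Set.mem_iUnion.mpr ⟨max K L, Aw_closed (Aw_mono (le_max_left _ _) ω hK) ?_⟩
    intro i hi
    exact (hL i hi.le).trans (le_max_right _ _)
  obtain ⟨K, hK⟩ := Set.mem_iUnion.mp hv
  obtain ⟨L, hL⟩ := exists_len (S := S) v k ω
  refine Set.mem_iUnion.mpr ⟨max K L, mem_VK.mpr ⟨Aw_mono (le_max_left _ _) ω hK, ?_, h2⟩⟩
  intro j hj
  exact (hL j hj).trans (le_max_right _ _)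

end det

section meas

variable {Ω : Type} [mΩ : MeasurableSpace Ω] {P : Measure Ω}
  {ξ : V → ℕ → Ω → Cc} {S : V → ℕ → Ω → V}

theorem meas_S (hM : Model P ξ S) (v : V) (k : ℕ) (T : Set V) :
    MeasurableSet {ω | S v k ω ∈ T} := by
  letI : MeasurableSpace V := ⊤
  haveI : DiscreteMeasurableSpace V := ⟨fun _ => trivial⟩
  have h : Measurable (S v k) := by
    induction k with
    | zero =>
      have : S v 0 = fun _ => v := by funext ω; exact hM.zero v ω
      rw [this]; exact measurable_const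
    | succ k ih =>
      have : S v (k + 1) = (fun p : V × Cc => mv p.1 p.2) ∘ fun ω => (S v k ω, ξ v k ω) := by
        funext ω; exact hM.succ v k ω
      rw [this]
      exact (measurable_of_countable _).comp (ih.prodMk (hM.meas v k))
  exact h (MeasurableSet.of_discrete (s := T))

theorem meas_An (hM : Model P ξ S) (K n : ℕ) : ∀ x : V, MeasurableSet {ω | x ∈ An S K n ω} := by
  induction n with
  | zero =>
    intro x
    simp only [An]
    exact MeasurableSet.const _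
  | succ n ih =>
    intro x
    have : {ω | x ∈ An S K (n + 1) ω} =
        ⋃ v : V, ⋃ k : ℕ, ({ω | v ∈ An S K n ω} ∩ (⋂ j : ℕ, ⋂ _ : j < k,
          {ω | S v j ω ∈ {y : V | y.length ≤ K}})) ∩ {ω | S v k ω ∈ ({x} : Set V)} := by
      ext ω
      simp only [An, Set.mem_iUnion, Set.mem_inter_iff, Set.mem_iInter, Set.mem_ofPred_eq,
        Set.mem_singleton_iff]
      constructor
      · rintro ⟨v, k, h1, h2, h3⟩
        exact ⟨v, k, ⟨h1, h2⟩, h3⟩
      · rintro ⟨v, k, ⟨h1, h2⟩, h3⟩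
        exact ⟨v, k, h1, h2, h3⟩
    rw [this]
    refine MeasurableSet.iUnion fun v => MeasurableSet.iUnion fun k => ?_
    refine MeasurableSet.inter (MeasurableSet.inter (ih v) ?_) (meas_S hM v k _)
    exact MeasurableSet.iInter fun j => MeasurableSet.iInter fun _ => meas_S hM v j _

theorem meas_VK (hM : Model P ξ S) (K : ℕ) (p : V × ℕ) : MeasurableSet {ω | p ∈ VK S K ω} := by
  have : {ω | p ∈ VK S K ω} = ((⋃ n : ℕ, {ω | p.1 ∈ An S K n ω}) ∩ (⋂ j : ℕ, ⋂ _ : j ≤ p.2,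
      {ω | S p.1 j ω ∈ {y : V | y.length ≤ K}})) ∩ {ω | S p.1 p.2 ω ∈ ({[]} : Set V)} := by
    ext ω
    simp only [Set.mem_inter_iff, Set.mem_iUnion, Set.mem_iInter, Set.mem_ofPred_eq,
      Set.mem_singleton_iff, mem_VK, Aw]
    tauto
  rw [this]
  refine MeasurableSet.inter (MeasurableSet.inter ?_ ?_) (meas_S hM p.1 p.2 _)
  · exact MeasurableSet.iUnion fun n => meas_An hM K n p.1
  · exact MeasurableSet.iInter fun j => MeasurableSet.iInter fun _ => meas_S hM p.1 j _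

theorem meas_encard (hM : Model P ξ S) (K : ℕ) :
    Measurable fun ω => ((VK S K ω).encard : ℝ≥0∞) := by
  have : (fun ω => ((VK S K ω).encard : ℝ≥0∞)) =
      fun ω => ∑' p : V × ℕ, {ω | p ∈ VK S K ω}.indicator (fun _ => (1 : ℝ≥0∞)) ω := by
    funext ω
    rw [← ENNReal.tsum_set_one, tsum_subtype (VK S K ω) (fun _ => (1 : ℝ≥0∞))]
    rfl
  rw [this]
  exact Measurable.ennreal_tsum fun p => measurable_const.indicator (meas_VK hM K p)

end meas

theorem R2_holds : R2 := by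
  intro C hC Ω _ P _ ξ S hM hK
  have h1 : ∫⁻ ω, ⨆ K, ((VK S K ω).encard : ℝ≥0∞) ∂P ≤ C := by
    rw [lintegral_iSup (fun K => meas_encard hM K)]
    · exact iSup_le hK
    · intro K L h ω
      have h5 : (VK S K ω).encard ≤ (VK S L ω).encard :=
        Set.encard_le_encard (VK_mono (S := S) ω h)
      show ((VK S K ω).encard : ℝ≥0∞) ≤ ((VK S L ω).encard : ℝ≥0∞)
      exact_mod_cast h5
  have h2 : ∀ᵐ ω ∂P, ⨆ K, ((VK S K ω).encard : ℝ≥0∞) < ⊤ :=
    ae_lt_top (Measurable.iSup fun K => meas_encard hM K) (ne_top_of_le_ne_top hC h1)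
  filter_upwards [h2] with ω hω
  letI : MeasurableSpace (V × ℕ) := ⊤
  haveI : DiscreteMeasurableSpace (V × ℕ) := ⟨fun _ => trivial⟩
  have h3 : Measure.count (⋃ K, VK S K ω) = ⨆ K, Measure.count (VK S K ω) :=
    (VK_mono (S := S) ω).measure_iUnion
  simp only [Measure.count_apply MeasurableSet.of_discrete] at h3
  have h4 : (⋃ K, VK S K ω).Finite := by
    rw [← Set.encard_ne_top_iff]
    intro htop
    rw [htop] at h3
    rw [← h3] at hω
    simp at hω
  exact h4.subset (VInf_subset ω)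

end Pool.Agent.H73.Frog
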