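import Pool.Agent.H73.Frog.R1
import Pool.Agent.H73.Frog.R2

/-!
# Final glue: machines with bounded potentials give transience on the 4-ary tree
-/

set_option autoImplicit false

open MeasureTheory ProbabilityTheory
open scoped ENNReal

namespace Pool.Agent.H73.Frog

open Pool.Agent.H92.Frog

theorem transient_of_mach (C : ℝ≥0∞) (hC : C ≠ ⊤) (h : ∀ K, ∃ m : Mach K, m.Φ m.s0 ≤ C) :
    ∀ (Ω : Type) [MeasurableSpace Ω] (P : Measure Ω) [IsProbabilityMeasure P]
      (ξ : List (Fin 4) → ℕ → Ω → Fin 4 × Fin 5),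
      (∀ v k, Measurable (ξ v k)) →
      iIndepFun (fun p : List (Fin 4) × ℕ => ξ p.1 p.2) P →
      (∀ v k (c : Fin 4 × Fin 5), P (ξ v k ⁻¹' {c}) = 1 / 20) →
      ∀ (S : List (Fin 4) → ℕ → Ω → List (Fin 4)),
      (∀ v ω, S v 0 ω = v) →
      (∀ v k ω, S v (k + 1) ω =
        if S v k ω = [] then [(ξ v k ω).1]
        else if (ξ v k ω).2 = 0 then (S v k ω).tail
        else (ξ v k ω).1 :: S v k ω) →
      ∀ᵐ ω ∂P, Set.Finite
        {p : List (Fin 4) × ℕ |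
          (∀ A : Set (List (Fin 4)), [] ∈ A →
              (∀ v ∈ A, ∀ k, S v k ω ∈ A) → p.1 ∈ A) ∧
          S p.1 p.2 ω = []} := by
  intro Ω _ P _ ξ hm hi hu S hz hs
  have hM : Model P ξ S := ⟨hm, hi, hu, hz, hs⟩
  refine R2_holds C hC P ξ S hM fun K => ?_
  obtain ⟨m, hΦ⟩ := h K
  exact (R1_holds K m P ξ S hM).trans hΦ

end Pool.Agent.H73.Frog
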