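import Pool.Agent.H73.Frog.Pot
import Pool.Agent.H73.Frog.Final

/-!
# The machine of an abstract potential
-/

set_option autoImplicit false

open scoped ENNReal Classical

namespace Pool.Agent.H73.Frog

open Pool.Agent.H92.Frog

noncomputable section

variable {P : Pot}

/-- The number of frogs in a start frame. -/
def stn (t : P.T) : ℕ := if t = P.F then 2 else 1

/-- The frog to be moved. -/
def pickF (s : MSt P) : Option V :=
  if h : ∃ v ∈ s.cfg.vis, s.cfg.pos v = vert s.l then some h.choose else none

/-- The permutation of the children which makes the pattern visible. -/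
def permOf (vis : Finset V) (t : P.T) (x : V) : Equiv.Perm (Fin 4) :=
  if h : ∃ π : Equiv.Perm (Fin 4), ∀ i, Dom P.ch P.F vis (P.ch t i) (π i :: x) then h.choose else 1

/-- A step to the child `i`. -/
def down (K : ℕ) (vis : Finset V) (l : List (Frame P.T)) (r : Frame P.T) (i : Fin 4) :
    List (Frame P.T) × Frame P.T :=
  if l.length + 1 ≤ K then
    (⟨i, fun j => P.ch ((topF l r).σ i)
        ((permOf (insert (i :: vert l) vis) ((topF l r).σ i) (i :: vert l)).symm j),
      if i :: vert l ∈ vis then 1 else 2⟩ :: (setTop (topF l r).σ ((topF l r).n - 1) l r).1,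
      (setTop (topF l r).σ ((topF l r).n - 1) l r).2)
  else
    setTop (Function.update (topF l r).σ i (if (topF l r).σ i = P.F then P.L else (topF l r).σ i))
      ((topF l r).n - 1) l r

/-- A step to the parent. -/
def up (f : Frame P.T) (l : List (Frame P.T)) (r : Frame P.T) : List (Frame P.T) × Frame P.T :=
  (⟨f.slot, f.σ, f.n - 1⟩ :: (setTop (topF l r).σ ((topF l r).n + 1) l r).1,
    (setTop (topF l r).σ ((topF l r).n + 1) l r).2)

/-- The new stack, before popping the finished frames. -/
def raw (K : ℕ) (vis : Finset V) (r : Frame P.T) (e : Cc) :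
    List (Frame P.T) → List (Frame P.T) × Frame P.T
  | [] => down K vis [] r e.1
  | f :: l => if e.2 = 0 then up f l r else down K vis (f :: l) r e.1

/-- One step of the machine. -/
def nextF (K : ℕ) (s : MSt P) (e : Cc) : MSt P :=
  match pickF s with
  | none => s
  | some v =>
    ⟨s.cfg.move v e, (norm (raw K s.cfg.vis s.r e s.l).1.length (raw K s.cfg.vis s.r e s.l).1
        (raw K s.cfg.vis s.r e s.l).2).1,
      (norm (raw K s.cfg.vis s.r e s.l).1.length (raw K s.cfg.vis s.r e s.l).1
        (raw K s.cfg.vis s.r e s.l).2).2⟩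

theorem pickF_some {s : MSt P} {v : V} (h : pickF s = some v) :
    v ∈ s.cfg.vis ∧ s.cfg.pos v = vert s.l := by
  unfold pickF at h
  split_ifs at h with h1
  rw [Option.some_inj] at h
  rw [← h]
  exact h1.choose_spec

theorem pickF_none {s : MSt P} (h : pickF s = none) :
    ∀ v ∈ s.cfg.vis, s.cfg.pos v ≠ vert s.l := by
  unfold pickF at h
  split_ifs at h with h1
  push Not at h1
  exact h1

theorem permOf_spec {vis : Finset V} {t : P.T} {x : V} (h : Dom P.ch P.F vis t x) (i : Fin 4) :
    Dom P.ch P.F vis (P.ch t i) (permOf vis t x i :: x) := by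
  have h1 := h.exists_perm P.chF
  unfold permOf
  rw [dif_pos h1]
  exact h1.choose_spec i

section inv

variable {K : ℕ} {c : Cfg} {l : List (Frame P.T)} {r : Frame P.T}

theorem Inv0.down (h : Inv0 K c l r) {v : V} (hv : v ∈ c.vis) (hp : c.pos v = vert l) (e : Cc)
    (hy : mv (vert l) e = e.1 :: vert l) :
    Inv0 K (c.move v e) (down K c.vis l r e.1).1 (down K c.vis l r e.1).2 := by
  set i := e.1 with hi
  have hvis : (c.move v e).vis = insert (i :: vert l) c.vis := by
    simp only [Cfg.move, hp, hy]
  have hpos : ∀ u, u ≠ v → (c.move v e).pos u = c.pos u := by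
    intro u hu
    simp only [Cfg.move, Function.update_of_ne hu]
  have hposv : (c.move v e).pos v = i :: vert l := by
    simp only [Cfg.move, Function.update_self, hp, hy]
  have hsub : c.vis ⊆ (c.move v e).vis := by rw [hvis]; exact Finset.subset_insert _ _
  have hcnt := fun z => cntAt_move (e := e) hv h.out z
  simp only [hp, hy] at hcnt
  have hcx : cntAt (c.move v e) (vert l) = (topF l r).n - 1 := by
    have h1 := hcnt (vert l)
    rw [if_pos rfl, if_neg (List.cons_ne_self _ _)] at h1
    have h2 := h.loc.cnt
    omega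
  have hrest : Rest P (c.move v e) l r := by
    refine Rest.mono hsub r l (fun z hz _ => ?_) h.rest
    have h1 := hcnt z
    have hzx : vert l ≠ z := fun hh => by
      have := congrArg List.length hh; rw [length_vert] at this; omega
    have hzy : i :: vert l ≠ z := fun hh => by
      have := congrArg List.length hh
      rw [List.length_cons, length_vert] at this; omega
    rw [if_neg hzx, if_neg hzy] at h1
    omega
  have hout : ∀ u, u ∉ (c.move v e).vis → (c.move v e).pos u = u := by
    intro u hu
    rw [hvis, Finset.mem_insert, not_or] at hu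
    rw [hpos u (fun hh => hu.2 (hh ▸ hv))]
    exact h.out u hu.2
  by_cases hK : l.length + 1 ≤ K
  · have hdef : Frog.down K c.vis l r i =
      (⟨i, fun j => P.ch ((topF l r).σ i)
        ((permOf (insert (i :: vert l) c.vis) ((topF l r).σ i) (i :: vert l)).symm j),
      if i :: vert l ∈ c.vis then 1 else 2⟩ :: (setTop (topF l r).σ ((topF l r).n - 1) l r).1,
      (setTop (topF l r).σ ((topF l r).n - 1) l r).2) := by
      unfold Frog.down; rw [if_pos hK]
    rw [hdef]
    have hcy : cntAt c (i :: vert l) = 0 := by
      by_contra hcon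
      obtain ⟨u, hu, hu2⟩ := exists_of_cntAt hcon
      rcases h.pos u hu with h1 | h1
      · rw [hu2] at h1
        have := h1.length_le
        rw [List.length_cons] at this
        omega
      · rw [hu2, List.length_cons, length_vert] at h1
        omega
    refine ⟨?_, ⟨?_, ?_, ?_⟩, ⟨?_, hrest.setTop⟩, ?_, hout⟩
    · simp only [List.length_cons, setTop_length]
      exact hK
    · rw [hvis]
      simp only [vert_cons, setTop_vert]
      exact Finset.mem_insert_self _ _
    · intro j _
      have h1 : Dom P.ch P.F (c.move v e).vis ((topF l r).σ i) (i :: vert l) :=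
        (h.loc.dom i (by simp)).mono hsub
      have h2 := permOf_spec h1
        ((permOf (c.move v e).vis ((topF l r).σ i) (i :: vert l)).symm j)
      rw [Equiv.apply_symm_apply] at h2
      rw [hvis] at h2 ⊢
      simp only [vert_cons, setTop_vert]
      exact h2
    · simp only [vert_cons, setTop_vert, topF]
      have h1 := hcnt (i :: vert l)
      rw [if_neg (fun hh => List.cons_ne_self _ _ hh.symm), if_pos rfl, hcy] at h1
      omega
    · refine Loc.setTop (hsub h.loc.mem) (fun j _ => (h.loc.dom j (by simp)).mono hsub) ?_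
      rw [hcx]
    · intro u hu
      simp only [vert_cons, setTop_vert]
      by_cases huv : u = v
      · left
        rw [huv, hposv]
      · rw [hpos u huv]
        rw [hvis, Finset.mem_insert] at hu
        by_cases huvis : u ∈ c.vis
        · rcases h.pos u huvis with h1 | h1
          · exact Or.inl (h1.trans (List.suffix_cons _ _))
          · exact Or.inr h1
        · rcases hu with hu | hu
          · left
            rw [h.out u huvis, hu]
          · exact absurd hu huvis
  · have hdef : Frog.down K c.vis l r i = setTop (Function.update (topF l r).σ i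
        (if (topF l r).σ i = P.F then P.L else (topF l r).σ i)) ((topF l r).n - 1) l r := by
      unfold Frog.down; rw [if_neg hK]
    rw [hdef]
    refine ⟨?_, ?_, hrest.setTop, ?_, hout⟩
    · rw [setTop_length]; exact h.len
    · refine Loc.setTop (hsub h.loc.mem) ?_ hcx.symm
      intro j _
      by_cases hj : j = i
      · subst hj
        rw [Function.update_self]
        split_ifs with hF
        · apply P.dom_L
          rw [hvis]
          exact Finset.mem_insert_self _ _
        · exact (h.loc.dom _ (by simp)).mono hsub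
      · rw [Function.update_of_ne hj]
        exact (h.loc.dom j (by simp)).mono hsub
    · intro u hu
      rw [setTop_vert]
      by_cases huv : u = v
      · right
        rw [huv, hposv, List.length_cons, length_vert]
        omega
      · rw [hpos u huv]
        by_cases huvis : u ∈ c.vis
        · exact h.pos u huvis
        · right
          rw [hvis, Finset.mem_insert] at hu
          rcases hu with hu | hu
          · rw [h.out u huvis, hu, List.length_cons, length_vert]
            omega
          · exact absurd hu huvis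

theorem Inv0.up {f : Frame P.T} (h : Inv0 K c (f :: l) r) {v : V} (hv : v ∈ c.vis)
    (hp : c.pos v = vert (f :: l)) (e : Cc) (hy : mv (vert (f :: l)) e = vert l) :
    Inv0 K (c.move v e) (up f l r).1 (up f l r).2 := by
  have hr : Loc P c l r (some f.slot) ∧ Rest P c l r := h.rest
  have hvis : (c.move v e).vis = c.vis := by
    simp only [Cfg.move, hp, hy]
    exact Finset.insert_eq_of_mem hr.1.mem
  have hpos : ∀ u, u ≠ v → (c.move v e).pos u = c.pos u := by
    intro u hu
    simp only [Cfg.move, Function.update_of_ne hu]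
  have hposv : (c.move v e).pos v = vert l := by
    simp only [Cfg.move, Function.update_self, hp, hy]
  have hcnt := fun z => cntAt_move (e := e) hv h.out z
  simp only [hp, hy, if_pos hr.1.mem] at hcnt
  have hne : vert (f :: l) ≠ vert l := List.cons_ne_self _ _
  refine ⟨?_, ⟨?_, ?_, ?_⟩, ⟨?_, ?_⟩, ?_, ?_⟩
  · have := h.len
    simp only [Frog.up, List.length_cons, setTop_length] at this ⊢
    exact this
  · rw [hvis]
    simp only [Frog.up, vert_cons, setTop_vert]
    exact h.loc.mem
  · rw [hvis]
    simp only [Frog.up, vert_cons, setTop_vert]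
    exact h.loc.dom
  · simp only [Frog.up, vert_cons, setTop_vert, topF]
    have h1 := hcnt (vert (f :: l))
    rw [if_pos rfl, if_neg hne.symm] at h1
    have h2 := h.loc.cnt
    simp only [topF, vert_cons] at h1 h2
    omega
  · refine Loc.setTop (by rw [hvis]; exact hr.1.mem) (by rw [hvis]; exact hr.1.dom) ?_
    have h1 := hcnt (vert l)
    rw [if_neg hne, if_pos rfl] at h1
    have h2 := hr.1.cnt
    omega
  · refine Rest.setTop (Rest.mono (by rw [hvis]) r l (fun z hz _ => ?_) hr.2)
    have h1 := hcnt z
    have hzx : vert (f :: l) ≠ z := fun hh => by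
      have := congrArg List.length hh
      rw [length_vert, List.length_cons] at this; omega
    have hzy : vert l ≠ z := fun hh => by
      have := congrArg List.length hh
      rw [length_vert] at this; omega
    rw [if_neg hzx, if_neg hzy] at h1
    omega
  · intro u hu
    rw [hvis] at hu
    simp only [Frog.up, vert_cons, setTop_vert]
    by_cases huv : u = v
    · left
      rw [huv, hposv]
      exact List.suffix_cons _ _
    · rw [hpos u huv]
      exact h.pos u hu
  · intro u hu
    rw [hvis] at hu
    rw [hpos u (fun hh => hu (hh ▸ hv))]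
    exact h.out u hu

theorem Inv0.raw (h : Inv0 K c l r) {v : V} (hv : v ∈ c.vis) (hp : c.pos v = vert l) (e : Cc) :
    Inv0 K (c.move v e) (raw K c.vis r e l).1 (raw K c.vis r e l).2 := by
  cases l with
  | nil =>
    simp only [Frog.raw]
    exact h.down hv hp e (by simp [mv])
  | cons f l =>
    simp only [Frog.raw]
    split_ifs with h0
    · exact h.up hv hp e (by simp [mv, h0])
    · exact h.down hv hp e (by simp [mv, h0])

end inv

section drift

variable {K : ℕ} {c : Cfg} {l : List (Frame P.T)} {r : Frame P.T}

theorem W_cons (f : Frame P.T) (l : List (Frame P.T)) (r : Frame P.T) :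
    W P (f :: l) r = P.E (fun k s =>
      Wt P l r (Function.update (topF l r).σ f.slot s) ((topF l r).n + k)) f.σ f.n := rfl

theorem W_cons_setTop (f : Frame P.T) (l : List (Frame P.T)) (r : Frame P.T) (n : ℕ) :
    W P (f :: (setTop (topF l r).σ n l r).1) (setTop (topF l r).σ n l r).2 =
      P.E (fun k s => Wt P l r (Function.update (topF l r).σ f.slot s) (n + k)) f.σ f.n := by
  rw [W_cons, Wt_setTop, topF_setTop_σ, topF_setTop_n]

theorem W_down (h : Inv0 K c l r) (i : Fin 4) :
    W P (down K c.vis l r i).1 (down K c.vis l r i).2 ≤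
      P.E (fun k s => Wt P l r (Function.update (topF l r).σ i s) ((topF l r).n - 1 + k))
        (P.ch ((topF l r).σ i)) (if (topF l r).σ i = P.F then 2 else 1) := by
  have hperm : ∀ (n : ℕ) (ψ : ℕ → P.T → ℝ≥0∞) (π : Equiv.Perm (Fin 4)),
      P.E ψ (fun j => P.ch ((topF l r).σ i) (π.symm j)) n = P.E ψ (P.ch ((topF l r).σ i)) n :=
      fun n ψ π => P.E_perm ψ (P.ch ((topF l r).σ i)) n π.symm
  unfold down
  split_ifs with hK hmem hF hF hF
  · rw [W_cons_setTop]
    simp only []
    rw [hperm, hF]
    exact P.E_fresh _
  · rw [W_cons_setTop]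
    simp only []
    rw [hperm]
  · rw [W_cons_setTop]
    simp only []
    rw [hperm]
  · exact absurd ((h.loc.dom i (by simp)).mem hF) hmem
  · rw [W_setTop, hF]
    exact P.E_truncF (fun k s => Wt P l r (Function.update (topF l r).σ i s)
      ((topF l r).n - 1 + k))
  · rw [W_setTop]
    exact P.E_trunc (fun k s => Wt P l r (Function.update (topF l r).σ i s)
      ((topF l r).n - 1 + k)) _ hF

theorem W_up (f : Frame P.T) (l : List (Frame P.T)) (r : Frame P.T) :
    W P (up f l r).1 (up f l r).2 =
      P.E (fun k s => Wt P l r (Function.update (topF l r).σ f.slot s) ((topF l r).n + (k + 1)))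
        f.σ (f.n - 1) := by
  unfold up
  rw [W_cons_setTop]
  simp only []
  congr 1
  funext k s
  congr 1
  omega

theorem sum_cc (g : Cc → ℝ≥0∞) : ∑ e : Cc, g e = ∑ i : Fin 4, ∑ j : Fin 5, g (i, j) :=
  Fintype.sum_prod_type g

theorem W_raw (h : Inv0 K c l r) (hn : (topF l r).n ≠ 0) :
    ∑ e : Cc, W P (raw K c.vis r e l).1 (raw K c.vis r e l).2 +
      20 * (if vert l = [] then 1 else 0) ≤ 20 * W P l r := by
  cases l with
  | nil =>
    simp only [topF] at hn
    obtain ⟨m, hm⟩ := Nat.exists_eq_succ_of_ne_zero hn
    have h1 : ∀ e : Cc, W P (raw K c.vis r e []).1 (raw K c.vis r e []).2 ≤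
        P.E (fun k s => P.R (Function.update r.σ e.1 s) (m + k)) (P.ch (r.σ e.1))
          (if r.σ e.1 = P.F then 2 else 1) := by
      intro e
      simp only [raw]
      refine (W_down h e.1).trans ?_
      simp only [topF, Wt, hm, Nat.succ_eq_add_one, Nat.add_sub_cancel]
      exact le_rfl
    have h2 := P.R_step r.σ m
    have h3 : W P [] r = P.R r.σ (m + 1) := by
      simp only [W, Wt, topF, hm]
    rw [h3]
    refine le_trans ?_ h2
    rw [add_comm, vert_nil, if_pos rfl, mul_one]
    gcongr
    rw [sum_cc]
    refine Finset.sum_le_sum fun i _ => ?_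
    calc ∑ j : Fin 5, W P (raw K c.vis r (i, j) []).1 (raw K c.vis r (i, j) []).2
        ≤ ∑ _j : Fin 5, P.E (fun k s => P.R (Function.update r.σ i s) (m + k)) (P.ch (r.σ i))
          (if r.σ i = P.F then 2 else 1) := Finset.sum_le_sum fun j _ => h1 (i, j)
      _ = 5 * P.E (fun k s => P.R (Function.update r.σ i s) (m + k)) (P.ch (r.σ i))
          (if r.σ i = P.F then 2 else 1) := by
        rw [Finset.sum_const, Finset.card_univ, Fintype.card_fin, nsmul_eq_mul]
        norm_num
  | cons f l =>
    simp only [topF] at hn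
    obtain ⟨m, hm⟩ := Nat.exists_eq_succ_of_ne_zero hn
    set φ : ℕ → P.T → ℝ≥0∞ := fun k s =>
      Wt P l r (Function.update (topF l r).σ f.slot s) ((topF l r).n + k) with hφ
    have h0 : ∀ i : Fin 4, W P (raw K c.vis r (i, 0) (f :: l)).1 (raw K c.vis r (i, 0) (f :: l)).2 =
        P.E (fun k s => φ (k + 1) s) f.σ m := by
      intro i
      simp only [raw, if_true]
      rw [W_up, hm]
      rfl
    have h1 : ∀ (i : Fin 4) (j : Fin 5), j ≠ 0 →
        W P (raw K c.vis r (i, j) (f :: l)).1 (raw K c.vis r (i, j) (f :: l)).2 ≤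
        P.E (fun k s => P.E φ (Function.update f.σ i s) (m + k)) (P.ch (f.σ i))
          (if f.σ i = P.F then 2 else 1) := by
      intro i j hj
      simp only [raw, if_neg hj]
      refine (W_down h i).trans ?_
      simp only [topF, Wt, hm, Nat.succ_eq_add_one, Nat.add_sub_cancel]
      exact le_rfl
    have h2 := P.E_step φ f.σ m
    have h3 : W P (f :: l) r = P.E φ f.σ (m + 1) := by
      simp only [W, Wt, topF, hm]
      rfl
    rw [h3]
    refine le_trans ?_ h2
    rw [vert_cons, if_neg (List.cons_ne_nil _ _), mul_zero, add_zero, sum_cc]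
    have h4 : ∀ i : Fin 4, ∑ j : Fin 5,
        W P (raw K c.vis r (i, j) (f :: l)).1 (raw K c.vis r (i, j) (f :: l)).2 ≤
        P.E (fun k s => φ (k + 1) s) f.σ m +
        4 * P.E (fun k s => P.E φ (Function.update f.σ i s) (m + k)) (P.ch (f.σ i))
          (if f.σ i = P.F then 2 else 1) := by
      intro i
      rw [Fin.sum_univ_succ, h0]
      gcongr
      calc ∑ j : Fin 4, W P (raw K c.vis r (i, j.succ) (f :: l)).1
            (raw K c.vis r (i, j.succ) (f :: l)).2
          ≤ ∑ _j : Fin 4, P.E (fun k s => P.E φ (Function.update f.σ i s) (m + k)) (P.ch (f.σ i))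
            (if f.σ i = P.F then 2 else 1) :=
            Finset.sum_le_sum fun j _ => h1 i j.succ (Fin.succ_ne_zero j)
        _ = _ := by
          rw [Finset.sum_const, Finset.card_univ, Fintype.card_fin, nsmul_eq_mul]
          norm_num
    refine (Finset.sum_le_sum fun i _ => h4 i).trans ?_
    rw [Finset.sum_add_distrib, Finset.sum_const, Finset.card_univ, Fintype.card_fin,
      nsmul_eq_mul]
    norm_num

end drift

/-- The machine of an abstract potential. -/
def mach (P : Pot) (K : ℕ) : Mach K where
  M := MSt P
  cfg := MSt.cfg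
  s0 := ⟨Cfg.init, [], ⟨0, fun _ => P.F, 1⟩⟩
  pick := pickF
  next := nextF K
  Inv := fun s => Inv0 K s.cfg s.l s.r ∧ (s.l ≠ [] → (topF s.l s.r).n ≠ 0)
  Φ := fun s => W P s.l s.r
  cfg0 := rfl
  inv0 := by
    refine ⟨⟨Nat.zero_le _, ⟨?_, ?_, ?_⟩, trivial, ?_, ?_⟩, fun h => absurd rfl h⟩
    · simp [Cfg.init, vert]
    · intro i _
      exact Dom.fresh _
    · simp [topF, cntAt, Cfg.init, vert]
    · intro v hv
      simp only [Cfg.init, Finset.mem_singleton] at hv
      left
      simp [Cfg.init, hv, vert]
    · intro v _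
      rfl
  inv_next := by
    rintro s v e ⟨h1, _⟩ hp
    obtain ⟨h3, h4⟩ := pickF_some hp
    simp only [nextF, hp]
    exact ⟨(h1.raw h3 h4 e).norm _, norm_top _ _ _ le_rfl⟩
  cfg_next := by
    intro s v e _ hp
    simp only [nextF, hp]
  pick_some := by
    rintro s v ⟨h1, _⟩ hp
    obtain ⟨h3, h4⟩ := pickF_some hp
    refine ⟨h3, ?_⟩
    rw [h4, length_vert]
    exact h1.len
  pick_none := by
    rintro s ⟨h1, h2⟩ hp v hv
    have h3 := pickF_none hp
    rcases h1.pos v hv with h4 | h4
    · exfalso
      have hl : s.l = [] := by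
        by_contra hne
        apply h2 hne
        rw [h1.loc.cnt]
        exact Finset.sum_eq_zero fun u hu => if_neg (h3 u hu)
      rw [hl, vert_nil, List.suffix_nil] at h4
      exact h3 v hv (by rw [h4, hl]; rfl)
    · exact h4
  drift := by
    rintro s v ⟨h1, _⟩ hp
    obtain ⟨h3, h4⟩ := pickF_some hp
    have hn : (topF s.l s.r).n ≠ 0 := by
      rw [h1.loc.cnt]
      intro h5
      exact cntAt_eq_zero h5 h3 h4
    rw [h4]
    refine le_trans ?_ (W_raw h1 hn)
    gcongr with e _
    simp only [nextF, hp]
    exact W_norm _ _ _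

theorem mach_start (P : Pot) (K : ℕ) : (mach P K).Φ (mach P K).s0 = P.R (fun _ => P.F) 1 := rfl

end

open MeasureTheory ProbabilityTheory in
/-- An abstract potential with a finite starting value makes the frog model on the 4-ary tree
transient. -/
theorem transient_of_pot (Q : Pot) (hQ : Q.R (fun _ => Q.F) 1 ≠ ⊤) :
    ∀ (Ω : Type) [MeasurableSpace Ω] (P : Measure Ω) [IsProbabilityMeasure P]
      (ξ : List (Fin 4) → ℕ → Ω → Fin 4 × Fin 5),
      (∀ v k, Measurable (ξ v k)) →
      iIndepFun (fun p : List (Fin 4) × ℕ => ξ p.1 p.2) P →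
      (∀ v k (c : Fin 4 × Fin 5), P (ξ v k ⁻¹' {c}) = 1 / 20) →
      ∀ (S : List (Fin 4) → ℕ → Ω → List (Fin 4)),
      (∀ v ω, S v 0 ω = v) →
      (∀ v k ω, S v (k + 1) ω =
        if S v k ω = [] then [(ξ v k ω).1]
        else if (ξ v k ω).2 = 0 then (S v k ω).tail
        else (ξ v k ω).1 :: S v k ω) →
      ∀ᵐ ω ∂P, Set.Finite
        {p : List (Fin 4) × ℕ |
          (∀ A : Set (List (Fin 4)), [] ∈ A →
              (∀ v ∈ A, ∀ k, S v k ω ∈ A) → p.1 ∈ A) ∧
          S p.1 p.2 ω = []} :=
  transient_of_mach _ hQ fun K => ⟨mach Q K, (mach_start Q K).le⟩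

end Pool.Agent.H73.Frog
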