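import Pool.Agent.H92.Frog.Basic

/-!
# From an abstract potential on coarse frames to an exploration machine
-/

set_option autoImplicit false

open scoped ENNReal

namespace Pool.Agent.H73.Frog

open Pool.Agent.H92.Frog

/-- `Dom ch F vis t x`: the visited set below `x` contains the pattern of the coarse type `t`. -/
inductive Dom {T : Type} (ch : T → Fin 4 → T) (F : T) (vis : Finset V) : T → V → Prop
  | fresh (x : V) : Dom ch F vis F x
  | node (t : T) (x : V) (π : Equiv.Perm (Fin 4)) (hx : x ∈ vis)
      (h : ∀ i, Dom ch F vis (ch t i) (π i :: x)) : Dom ch F vis t x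

/-- Coarse types, start frames and an abstract potential. -/
structure Pot where
  T : Type
  F : T
  L : T
  ch : T → Fin 4 → T
  chF : ∀ i, ch F i = F
  chL : ∀ i, ch L i = F
  le : T → T → Prop
  le_cases : ∀ a b, le a b → a = F ∨ (b ≠ F ∧ ∃ ρ : Equiv.Perm (Fin 4), ∀ i, le (ch a i) (ch b (ρ i)))
  cs : (Fin 4 → T) → T
  cs_le : ∀ σ, ∃ ρ : Equiv.Perm (Fin 4), ∀ i, le (ch (cs σ) i) (σ (ρ i))
  E : (ℕ → T → ℝ≥0∞) → (Fin 4 → T) → ℕ → ℝ≥0∞
  R : (Fin 4 → T) → ℕ → ℝ≥0∞
  E_mono : ∀ φ ψ σ n, (∀ k s, φ k s ≤ ψ k s) → E φ σ n ≤ E ψ σ n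
  E_perm : ∀ φ σ n (π : Equiv.Perm (Fin 4)), E φ (σ ∘ π) n = E φ σ n
  E_zero : ∀ φ σ, φ 0 (cs σ) ≤ E φ σ 0
  E_fresh : ∀ ψ, E ψ (ch F) 1 ≤ E ψ (ch F) 2
  E_truncF : ∀ ψ : ℕ → T → ℝ≥0∞, ψ 0 L ≤ E ψ (ch F) 2
  E_trunc : ∀ (ψ : ℕ → T → ℝ≥0∞) s, s ≠ F → ψ 0 s ≤ E ψ (ch s) 1
  E_step : ∀ φ σ n, 4 * E (fun k s => φ (k + 1) s) σ n +
      ∑ i : Fin 4, 4 * E (fun k s => E φ (Function.update σ i s) (n + k)) (ch (σ i))
        (open Classical in if σ i = F then 2 else 1) ≤ 20 * E φ σ (n + 1)
  R_step : ∀ σ n, 20 + ∑ i : Fin 4, 5 * E (fun k s => R (Function.update σ i s) (n + k)) (ch (σ i))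
        (open Classical in if σ i = F then 2 else 1) ≤ 20 * R σ (n + 1)

/-- A frame of the stack: the position among the children of the parent, the coarse types of the
children and the number of frogs at the vertex. -/
structure Frame (T : Type) where
  slot : Fin 4
  σ : Fin 4 → T
  n : ℕ

section dom

variable {T : Type} {ch : T → Fin 4 → T} {F : T}

theorem Dom.mono {vis vis' : Finset V} (h : vis ⊆ vis') {t : T} {x : V}
    (hd : Dom ch F vis t x) : Dom ch F vis' t x := by
  induction hd with
  | fresh x => exact Dom.fresh x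
  | node t x π hx _ ih => exact Dom.node t x π (h hx) ih

theorem Dom.mem {vis : Finset V} {t : T} {x : V} (hd : Dom ch F vis t x) (ht : t ≠ F) :
    x ∈ vis := by
  cases hd with
  | fresh => exact absurd rfl ht
  | node _ _ π hx _ => exact hx

theorem Dom.exists_perm (hF : ∀ i, ch F i = F) {vis : Finset V} {t : T} {x : V}
    (hd : Dom ch F vis t x) :
    ∃ π : Equiv.Perm (Fin 4), ∀ i, Dom ch F vis (ch t i) (π i :: x) := by
  cases hd with
  | fresh => exact ⟨1, fun i => by rw [hF]; exact Dom.fresh _⟩
  | node _ _ π hx h => exact ⟨π, h⟩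

end dom

namespace Pot

variable (P : Pot)

theorem dom_le {vis : Finset V} {b : P.T} {x : V} (hd : Dom P.ch P.F vis b x) :
    ∀ a, P.le a b → Dom P.ch P.F vis a x := by
  induction hd with
  | fresh x =>
    intro a h
    rcases P.le_cases _ _ h with h | ⟨h, _⟩
    · rw [h]; exact Dom.fresh x
    · exact absurd rfl h
  | node b x π hx _ ih =>
    intro a h
    rcases P.le_cases _ _ h with h | ⟨_, ρ, hρ⟩
    · rw [h]; exact Dom.fresh x
    · exact Dom.node a x (ρ.trans π) hx fun i => ih (ρ i) _ (hρ i)

theorem dom_cs {vis : Finset V} {σ : Fin 4 → P.T} {x : V} (hx : x ∈ vis)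
    (h : ∀ i, Dom P.ch P.F vis (σ i) (i :: x)) : Dom P.ch P.F vis (P.cs σ) x := by
  obtain ⟨ρ, hρ⟩ := P.cs_le σ
  exact Dom.node _ x ρ hx fun i => P.dom_le (h (ρ i)) _ (hρ i)

theorem dom_L {vis : Finset V} {x : V} (hx : x ∈ vis) : Dom P.ch P.F vis P.L x :=
  Dom.node _ x 1 hx fun i => by rw [P.chL]; exact Dom.fresh _

end Pot

section stack

variable {T : Type}

/-- The top frame. -/
def topF : List (Frame T) → Frame T → Frame T
  | [], r => r
  | f :: _, _ => f

/-- Replace the children types and the number of frogs of the top frame. -/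
def setTop (σ : Fin 4 → T) (n : ℕ) : List (Frame T) → Frame T → List (Frame T) × Frame T
  | [], r => ([], ⟨r.slot, σ, n⟩)
  | f :: l, r => (⟨f.slot, σ, n⟩ :: l, r)

/-- The vertex of the top frame. -/
def vert (l : List (Frame T)) : V := l.map Frame.slot

@[simp] theorem vert_nil : vert ([] : List (Frame T)) = [] := rfl
@[simp] theorem vert_cons (f : Frame T) (l : List (Frame T)) :
    vert (f :: l) = f.slot :: vert l := rfl
@[simp] theorem length_vert (l : List (Frame T)) : (vert l).length = l.length := by simp [vert]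

@[simp] theorem setTop_vert (σ : Fin 4 → T) (n : ℕ) (l : List (Frame T)) (r : Frame T) :
    vert (setTop σ n l r).1 = vert l := by
  cases l <;> rfl

@[simp] theorem setTop_length (σ : Fin 4 → T) (n : ℕ) (l : List (Frame T)) (r : Frame T) :
    (setTop σ n l r).1.length = l.length := by
  cases l <;> rfl

@[simp] theorem topF_setTop_σ (σ : Fin 4 → T) (n : ℕ) (l : List (Frame T)) (r : Frame T) :
    (topF (setTop σ n l r).1 (setTop σ n l r).2).σ = σ := by
  cases l <;> rfl

@[simp] theorem topF_setTop_n (σ : Fin 4 → T) (n : ℕ) (l : List (Frame T)) (r : Frame T) :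
    (topF (setTop σ n l r).1 (setTop σ n l r).2).n = n := by
  cases l <;> rfl

end stack

/-- The number of awake frogs at `z`. -/
def cntAt (c : Cfg) (z : V) : ℕ := ∑ u ∈ c.vis, if c.pos u = z then 1 else 0

theorem cntAt_eq_zero {c : Cfg} {z : V} (h : cntAt c z = 0) {u : V} (hu : u ∈ c.vis) :
    c.pos u ≠ z := by
  unfold cntAt at h
  rw [Finset.sum_eq_zero_iff] at h
  have := h u hu
  intro h2
  rw [if_pos h2] at this
  exact one_ne_zero this

theorem exists_of_cntAt {c : Cfg} {z : V} (h : cntAt c z ≠ 0) : ∃ u ∈ c.vis, c.pos u = z := by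
  by_contra hcon
  push Not at hcon
  apply h
  unfold cntAt
  exact Finset.sum_eq_zero fun u hu => if_neg (hcon u hu)

theorem mv_ne (x : V) (c : Cc) : mv x c ≠ x := by
  unfold mv
  split_ifs with h h'
  · rw [h]; simp
  · intro h2
    have := congrArg List.length h2
    rw [List.length_tail] at this
    have := List.length_pos_iff.mpr h
    omega
  · exact List.cons_ne_self _ _

theorem cntAt_move {c : Cfg} {v : V} {e : Cc} (hv : v ∈ c.vis)
    (hout : ∀ u, u ∉ c.vis → c.pos u = u) (z : V) :
    cntAt (c.move v e) z + (if c.pos v = z then 1 else 0) =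
      cntAt c z + (if mv (c.pos v) e = z then (if mv (c.pos v) e ∈ c.vis then 1 else 2) else 0) := by
  set y := mv (c.pos v) e with hy
  have h1 : ∑ u ∈ c.vis, (if (Function.update c.pos v y) u = z then 1 else 0) =
      (if y = z then 1 else 0) + ∑ u ∈ c.vis.erase v, (if c.pos u = z then 1 else 0) := by
    rw [← Finset.add_sum_erase _ _ hv, Function.update_self]
    congr 1
    apply Finset.sum_congr rfl
    intro u hu
    rw [Function.update_of_ne (Finset.ne_of_mem_erase hu)]
  have h2 : ∑ u ∈ c.vis, (if c.pos u = z then 1 else 0) =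
      (if c.pos v = z then 1 else 0) + ∑ u ∈ c.vis.erase v, (if c.pos u = z then 1 else 0) := by
    rw [← Finset.add_sum_erase _ _ hv]
  have h3 : cntAt (c.move v e) z =
      ∑ u ∈ insert y c.vis, (if (Function.update c.pos v y) u = z then 1 else 0) := rfl
  rw [h3]
  unfold cntAt
  by_cases hmem : y ∈ c.vis
  · rw [Finset.insert_eq_of_mem hmem, if_pos hmem, h1, h2]
    omega
  · rw [Finset.sum_insert hmem, if_neg hmem, h1, h2]
    have hne : y ≠ v := fun h => hmem (h ▸ hv)
    rw [Function.update_of_ne hne, hout y hmem]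
    split_ifs <;> omega

section machine

variable (P : Pot)

/-- The potential of the stack, with the top frame replaced. -/
noncomputable def Wt : List (Frame P.T) → Frame P.T → (Fin 4 → P.T) → ℕ → ℝ≥0∞
  | [], _, σ, n => P.R σ n
  | f :: l, r, σ, n => P.E (fun k s =>
      Wt l r (Function.update (topF l r).σ f.slot s) ((topF l r).n + k)) σ n

/-- The potential of the stack. -/
noncomputable def W (l : List (Frame P.T)) (r : Frame P.T) : ℝ≥0∞ :=
  Wt P l r (topF l r).σ (topF l r).n

theorem Wt_setTop (σ : Fin 4 → P.T) (n : ℕ) (l : List (Frame P.T)) (r : Frame P.T) :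
    Wt P (setTop σ n l r).1 (setTop σ n l r).2 = Wt P l r := by
  cases l <;> rfl

theorem W_setTop (σ : Fin 4 → P.T) (n : ℕ) (l : List (Frame P.T)) (r : Frame P.T) :
    W P (setTop σ n l r).1 (setTop σ n l r).2 = Wt P l r σ n := by
  unfold W
  rw [Wt_setTop, topF_setTop_σ, topF_setTop_n]

/-- Local consistency of the top frame (one slot may be open). -/
structure Loc (c : Cfg) (l : List (Frame P.T)) (r : Frame P.T) (h : Option (Fin 4)) : Prop where
  mem : vert l ∈ c.vis
  dom : ∀ i, h ≠ some i → Dom P.ch P.F c.vis ((topF l r).σ i) (i :: vert l)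
  cnt : (topF l r).n = cntAt c (vert l)

/-- Consistency of the frames below the top. -/
def Rest (c : Cfg) : List (Frame P.T) → Frame P.T → Prop
  | [], _ => True
  | f :: l, r => Loc P c l r (some f.slot) ∧ Rest c l r

variable {P}

theorem Loc.mono {c c' : Cfg} {l : List (Frame P.T)} {r : Frame P.T} {h : Option (Fin 4)}
    (hl : Loc P c l r h) (hvis : c.vis ⊆ c'.vis) (hcnt : cntAt c' (vert l) = cntAt c (vert l)) :
    Loc P c' l r h :=
  ⟨hvis hl.mem, fun i hi => (hl.dom i hi).mono hvis, by rw [hcnt]; exact hl.cnt⟩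

theorem Rest.mono {c c' : Cfg} (hvis : c.vis ⊆ c'.vis) (r : Frame P.T) :
    ∀ l : List (Frame P.T),
    (∀ z, z.length < l.length → z <:+ vert l → cntAt c' z = cntAt c z) →
    Rest P c l r → Rest P c' l r
  | [], _, _ => trivial
  | f :: l, hcnt, h => by
    refine ⟨h.1.mono hvis (hcnt _ (by simp) (List.suffix_cons _ _)), ?_⟩
    refine Rest.mono hvis r l (fun z hz hs => hcnt z ?_ (hs.trans (List.suffix_cons _ _))) h.2
    simp only [List.length_cons]; omega

/-- The states of the machine. -/
structure MSt (P : Pot) where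
  cfg : Cfg
  l : List (Frame P.T)
  r : Frame P.T

/-- Pop the finished frames. -/
def norm : ℕ → List (Frame P.T) → Frame P.T → List (Frame P.T) × Frame P.T
  | 0, l, r => (l, r)
  | _ + 1, [], r => ([], r)
  | k + 1, f :: l, r =>
    if f.n = 0 then
      norm k (setTop (Function.update (topF l r).σ f.slot (P.cs f.σ)) (topF l r).n l r).1
        (setTop (Function.update (topF l r).σ f.slot (P.cs f.σ)) (topF l r).n l r).2
    else (f :: l, r)

theorem W_norm (k : ℕ) : ∀ (l : List (Frame P.T)) (r : Frame P.T),
    W P (norm k l r).1 (norm k l r).2 ≤ W P l r := by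
  induction k with
  | zero => intro l r; exact le_rfl
  | succ k ih =>
    intro l r
    cases l with
    | nil => exact le_rfl
    | cons f l =>
      by_cases h0 : f.n = 0
      · simp only [norm, if_pos h0]
        refine (ih _ _).trans ?_
        rw [W_setTop]
        have h1 : W P (f :: l) r = P.E (fun k s =>
            Wt P l r (Function.update (topF l r).σ f.slot s) ((topF l r).n + k)) f.σ 0 := by
          unfold W
          simp only [topF, Wt, h0]
        rw [h1]
        exact P.E_zero (fun k s =>
            Wt P l r (Function.update (topF l r).σ f.slot s) ((topF l r).n + k)) f.σ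
      · simp only [norm, if_neg h0]
        exact le_rfl

/-- The invariant of the machine (without normalisation). -/
structure Inv0 (K : ℕ) (c : Cfg) (l : List (Frame P.T)) (r : Frame P.T) : Prop where
  len : l.length ≤ K
  loc : Loc P c l r none
  rest : Rest P c l r
  pos : ∀ v ∈ c.vis, c.pos v <:+ vert l ∨ K < (c.pos v).length
  out : ∀ v, v ∉ c.vis → c.pos v = v

theorem Loc.setTop {c : Cfg} {l : List (Frame P.T)} {r : Frame P.T} {σ : Fin 4 → P.T} {n : ℕ}
    {h : Option (Fin 4)} (hmem : vert l ∈ c.vis)
    (hdom : ∀ i, h ≠ some i → Dom P.ch P.F c.vis (σ i) (i :: vert l))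
    (hcnt : n = cntAt c (vert l)) :
    Loc P c (setTop σ n l r).1 (setTop σ n l r).2 h where
  mem := by rw [setTop_vert]; exact hmem
  dom := by rw [setTop_vert, topF_setTop_σ]; exact hdom
  cnt := by rw [setTop_vert, topF_setTop_n]; exact hcnt

theorem Rest.setTop {c : Cfg} {l : List (Frame P.T)} {r : Frame P.T} {σ : Fin 4 → P.T} {n : ℕ}
    (h : Rest P c l r) : Rest P c (setTop σ n l r).1 (setTop σ n l r).2 := by
  cases l with
  | nil => trivial
  | cons f l => exact h

theorem Inv0.norm {K : ℕ} {c : Cfg} (k : ℕ) : ∀ {l : List (Frame P.T)} {r : Frame P.T},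
    Inv0 K c l r → Inv0 K c (norm k l r).1 (norm k l r).2 := by
  induction k with
  | zero => intro l r h; exact h
  | succ k ih =>
    intro l r h
    cases l with
    | nil => exact h
    | cons f l =>
      by_cases h0 : f.n = 0
      · simp only [Pool.Agent.H73.Frog.norm, if_pos h0]
        apply ih
        have hl : Loc P c (f :: l) r none := h.loc
        have hr : Loc P c l r (some f.slot) ∧ Rest P c l r := h.rest
        refine ⟨?_, ?_, hr.2.setTop, ?_, h.out⟩
        · rw [setTop_length]
          have := h.len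
          simp only [List.length_cons] at this
          omega
        · refine Loc.setTop hr.1.mem ?_ hr.1.cnt
          intro i _
          by_cases hi : i = f.slot
          · subst hi
            rw [Function.update_self]
            exact P.dom_cs hl.mem fun j => hl.dom j (by simp)
          · rw [Function.update_of_ne hi]
            exact hr.1.dom i (by simpa using fun h => hi h.symm)
        · intro v hv
          rw [setTop_vert]
          rcases h.pos v hv with h1 | h1
          · left
            rcases List.suffix_cons_iff.mp h1 with h2 | h2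
            · exfalso
              have h3 : cntAt c (vert (f :: l)) = 0 := by
                have := hl.cnt
                simp only [topF] at this
                rw [← this, h0]
              exact cntAt_eq_zero h3 hv (by rw [h2]; rfl)
            · exact h2
          · exact Or.inr h1
      · simp only [Pool.Agent.H73.Frog.norm, if_neg h0]
        exact h

theorem norm_top (k : ℕ) : ∀ (l : List (Frame P.T)) (r : Frame P.T), l.length ≤ k →
    (norm k l r).1 ≠ [] → (topF (norm k l r).1 (norm k l r).2).n ≠ 0 := by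
  induction k with
  | zero =>
    intro l r hl h
    exact absurd (List.length_eq_zero_iff.mp (Nat.le_zero.mp hl)) (by simpa [norm] using h)
  | succ k ih =>
    intro l r hl h
    cases l with
    | nil => simp [norm] at h
    | cons f l =>
      by_cases h0 : f.n = 0
      · simp only [norm, if_pos h0] at h ⊢
        apply ih _ _ _ h
        rw [setTop_length]
        simp only [List.length_cons] at hl
        omega
      · simp only [norm, if_neg h0]
        exact h0

end machine

end Pool.Agent.H73.Frog
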