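import Pool.Agent.H92.Frog.Basic

/-!
# The potential of an exploration machine bounds the expected number of visits to the root
-/

set_option autoImplicit false

open MeasureTheory ProbabilityTheory
open scoped ENNReal

namespace Pool.Agent.H73.Frog

open Pool.Agent.H92.Frog

section run

variable {Ω : Type} {K : ℕ} (m : Mach K) (ξ : V → ℕ → Ω → Cc)

/-- Total reward collected in `n` steps starting from the state `s`. -/
noncomputable def Rw (r : m.M → ℝ≥0∞) : ℕ → m.M → Ω → ℝ≥0∞
  | 0, _, _ => 0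
  | n + 1, s, ω =>
    match m.pick s with
    | none => 0
    | some v => r s + Rw r n (m.next s (ξ v ((m.cfg s).cnt v) ω)) ω

variable {m ξ}

theorem Rw_none {r : m.M → ℝ≥0∞} {n : ℕ} {s : m.M} {ω : Ω} (h : m.pick s = none) :
    Rw m ξ r n s ω = 0 := by
  cases n with
  | zero => rfl
  | succ n => simp only [Rw, h]

theorem Rw_some {r : m.M → ℝ≥0∞} {n : ℕ} {s : m.M} {ω : Ω} {v : V} (h : m.pick s = some v) :
    Rw m ξ r (n + 1) s ω = r s + Rw m ξ r n (m.next s (ξ v ((m.cfg s).cnt v) ω)) ω := by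
  simp only [Rw, h]

theorem Rw_mono {r : m.M → ℝ≥0∞} (n : ℕ) : ∀ (s : m.M) (ω : Ω),
    Rw m ξ r n s ω ≤ Rw m ξ r (n + 1) s ω := by
  induction n with
  | zero => intro s ω; simp [Rw]
  | succ n ih =>
    intro s ω
    rcases h : m.pick s with _ | v
    · rw [Rw_none h]; exact bot_le
    · rw [Rw_some h, Rw_some h]
      gcongr
      exact ih _ _

/-- The sigma-algebra of the not yet revealed randomness. -/
@[instance_reducible] def Fut (ξ : V → ℕ → Ω → Cc) (cnt : V → ℕ) : MeasurableSpace Ω :=
  ⨆ q ∈ {q : V × ℕ | cnt q.1 ≤ q.2}, MeasurableSpace.comap (fun ω => ξ q.1 q.2 ω) inferInstance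

theorem Fut_mono (ξ : V → ℕ → Ω → Cc) {c c' : V → ℕ} (h : ∀ v, c v ≤ c' v) :
    Fut ξ c' ≤ Fut ξ c := by
  unfold Fut
  apply biSup_mono
  intro q hq
  exact le_trans (h _) hq

theorem Fut_le [mΩ : MeasurableSpace Ω] {ξ : V → ℕ → Ω → Cc} (hξ : ∀ v k, Measurable (ξ v k))
    (c : V → ℕ) : Fut ξ c ≤ mΩ := by
  unfold Fut
  refine iSup₂_le fun q _ => ?_
  exact (hξ q.1 q.2).comap_le

theorem Fut_meas (ξ : V → ℕ → Ω → Cc) (cnt : V → ℕ) (v : V) (k : ℕ) (h : cnt v ≤ k) :
    Measurable[Fut ξ cnt] (ξ v k) := by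
  have h1 : MeasurableSpace.comap (fun ω => ξ v k ω) inferInstance ≤ Fut ξ cnt := by
    unfold Fut
    exact le_iSup₂_of_le (v, k) h le_rfl
  exact Measurable.mono (comap_measurable _) h1 le_rfl

theorem Rw_decomp {r : m.M → ℝ≥0∞} {n : ℕ} {s : m.M} {v : V} (h : m.pick s = some v) :
    Rw m ξ r (n + 1) s = fun ω => r s + ∑ c : Cc, Rw m ξ r n (m.next s c) ω *
      (ξ v ((m.cfg s).cnt v) ⁻¹' {c}).indicator (fun _ => 1) ω := by
  funext ω
  rw [Rw_some h]
  congr 1
  rw [Finset.sum_eq_single (ξ v ((m.cfg s).cnt v) ω)]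
  · simp
  · intro c _ hc
    rw [Set.indicator_of_notMem]
    · simp
    · simpa using fun h => hc h.symm
  · simp

theorem cnt_next {s : m.M} {v : V} {c : Cc} (hI : m.Inv s) (h : m.pick s = some v) (u : V) :
    (m.cfg s).cnt u ≤ (m.cfg (m.next s c)).cnt u := by
  rw [m.cfg_next s v c hI h]
  simp only [Cfg.move, Function.update_apply]
  split_ifs with hu
  · subst hu; omega
  · exact le_rfl

theorem cnt_next_self {s : m.M} {v : V} {c : Cc} (hI : m.Inv s) (h : m.pick s = some v) :
    (m.cfg (m.next s c)).cnt v = (m.cfg s).cnt v + 1 := by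
  rw [m.cfg_next s v c hI h]
  simp [Cfg.move]

theorem Rw_meas {r : m.M → ℝ≥0∞} (n : ℕ) : ∀ s : m.M, m.Inv s →
    Measurable[Fut ξ (m.cfg s).cnt] (Rw m ξ r n s) := by
  induction n with
  | zero => intro s _; exact measurable_const
  | succ n ih =>
    intro s hs
    rcases h : m.pick s with _ | v
    · have : Rw m ξ r (n + 1) s = fun _ => 0 := by
        funext ω; exact Rw_none h
      rw [this]; exact measurable_const
    · rw [Rw_decomp h]
      refine Measurable.add measurable_const ?_
      refine Finset.measurable_fun_sum _ fun c _ => ?_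
      refine Measurable.mul ?_ ?_
      · exact Measurable.mono (ih _ (m.inv_next s v c hs h))
          (Fut_mono ξ fun u => cnt_next hs h u) le_rfl
      · refine Measurable.indicator measurable_const ?_
        exact Fut_meas ξ _ v _ le_rfl (measurableSet_singleton c)

end run

section integral

variable {Ω : Type} [mΩ : MeasurableSpace Ω] {K : ℕ} {m : Mach K} {P : Measure Ω}
  [IsProbabilityMeasure P] {ξ : V → ℕ → Ω → Cc} {S : V → ℕ → Ω → V}

theorem indep_fut (hM : Model P ξ S) (cnt : V → ℕ) (v : V) (k : ℕ) (h : k < cnt v) (c : Cc) :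
    IndepSets {s | MeasurableSet[Fut ξ cnt] s} {ξ v k ⁻¹' {c}} P := by
  have hi := hM.indep.iIndep
  have hle : ∀ q : V × ℕ, MeasurableSpace.comap (fun ω => ξ q.1 q.2 ω) inferInstance ≤ mΩ :=
    fun q => (hM.meas q.1 q.2).comap_le
  have hd : Disjoint {q : V × ℕ | cnt q.1 ≤ q.2} {((v, k) : V × ℕ)} := by
    rw [Set.disjoint_singleton_right]
    simp only [Set.mem_ofPred_eq]
    omega
  have h1 := indep_iSup_of_disjoint hle hi hd
  rw [Indep_iff] at h1
  rw [IndepSets_iff]
  intro s t hs ht
  refine h1 s t hs ?_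
  rw [Set.mem_singleton_iff] at ht
  subst ht
  have h2 : MeasurableSpace.comap (fun ω => ξ v k ω) inferInstance ≤
      ⨆ i ∈ ({((v, k) : V × ℕ)} : Set (V × ℕ)),
        MeasurableSpace.comap (fun ω => ξ i.1 i.2 ω) inferInstance :=
    le_iSup₂_of_le (v, k) rfl le_rfl
  exact h2 _ ⟨{c}, measurableSet_singleton c, rfl⟩

theorem lint_Rw (hM : Model P ξ S) (r Φ : m.M → ℝ≥0∞) (Q : m.M → Prop)
    (hQ : ∀ s v c, Q s → m.pick s = some v → Q (m.next s c)) (hQI : ∀ s, Q s → m.Inv s)
    (hd : ∀ s v, Q s → m.pick s = some v → ∑ c : Cc, Φ (m.next s c) + 20 * r s ≤ 20 * Φ s)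
    (n : ℕ) : ∀ s, Q s → ∫⁻ ω, Rw m ξ r n s ω ∂P ≤ Φ s := by
  induction n with
  | zero => intro s _; simp [Rw]
  | succ n ih =>
    intro s hs
    rcases h : m.pick s with _ | v
    · simp [Rw_none h]
    · rw [Rw_decomp h]
      have hme : ∀ c : Cc, Measurable[Fut ξ (m.cfg (m.next s c)).cnt]
          (Rw m ξ r n (m.next s c)) := fun c => Rw_meas n _ (m.inv_next s v c (hQI s hs) h)
      have hme' : ∀ c : Cc, Measurable (Rw m ξ r n (m.next s c)) := fun c =>
        (hme c).mono (Fut_le hM.meas _) le_rfl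
      have hT : ∀ c : Cc, MeasurableSet (ξ v ((m.cfg s).cnt v) ⁻¹' {c}) := fun c =>
        hM.meas v _ (measurableSet_singleton c)
      rw [lintegral_add_left measurable_const, lintegral_const, measure_univ, mul_one,
        lintegral_finsetSum]
      · have key : ∀ c : Cc, ∫⁻ ω, Rw m ξ r n (m.next s c) ω *
            (ξ v ((m.cfg s).cnt v) ⁻¹' {c}).indicator (fun _ => 1) ω ∂P ≤
            Φ (m.next s c) * (1 / 20) := by
          intro c
          rw [lintegral_mul_indicator_eq_lintegral_mul_lintegral_indicator (Fut_le hM.meas _) 1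
            (hT c) (indep_fut hM _ v _ (by rw [cnt_next_self (hQI s hs) h]; omega) c) (hme c)]
          rw [lintegral_indicator (hT c), lintegral_const, Measure.restrict_apply MeasurableSet.univ,
            Set.univ_inter, one_mul, hM.unif]
          gcongr
          exact ih _ (hQ s v c hs h)
        calc r s + ∑ c : Cc, ∫⁻ ω, Rw m ξ r n (m.next s c) ω *
            (ξ v ((m.cfg s).cnt v) ⁻¹' {c}).indicator (fun _ => 1) ω ∂P
            ≤ r s + ∑ c : Cc, Φ (m.next s c) * (1 / 20) := by
              gcongr with c _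
              exact key c
          _ = (∑ c : Cc, Φ (m.next s c) + 20 * r s) * (1 / 20) := by
              rw [add_mul, Finset.sum_mul, mul_comm (20 : ℝ≥0∞) (r s), mul_assoc,
                one_div, ENNReal.mul_inv_cancel (by norm_num) (by norm_num), mul_one, add_comm]
          _ ≤ (20 * Φ s) * (1 / 20) := by
              gcongr
              exact hd s v hs h
          _ = Φ s := by
              rw [mul_comm (20 : ℝ≥0∞) (Φ s), mul_assoc, one_div,
                ENNReal.mul_inv_cancel (by norm_num) (by norm_num), mul_one]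
      · intro c _
        exact (hme' c).mul (measurable_const.indicator (hT c))

theorem lint_iSup_Rw (hM : Model P ξ S) (r Φ : m.M → ℝ≥0∞) (Q : m.M → Prop)
    (hQ : ∀ s v c, Q s → m.pick s = some v → Q (m.next s c)) (hQI : ∀ s, Q s → m.Inv s)
    (hd : ∀ s v, Q s → m.pick s = some v → ∑ c : Cc, Φ (m.next s c) + 20 * r s ≤ 20 * Φ s)
    (s : m.M) (hs : Q s) : ∫⁻ ω, ⨆ n, Rw m ξ r n s ω ∂P ≤ Φ s := by
  rw [lintegral_iSup]
  · exact iSup_le fun n => lint_Rw hM r Φ Q hQ hQI hd n s hs
  · exact fun n => (Rw_meas n s (hQI s hs)).mono (Fut_le hM.meas _) le_rfl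
  · exact monotone_nat_of_le_succ fun n ω => Rw_mono n s ω

end integral

section path

variable {Ω : Type} {K : ℕ} {m : Mach K} {ξ : V → ℕ → Ω → Cc} {S : V → ℕ → Ω → V}

/-- The state `s` is consistent with the realisation `ω`. -/
structure Good (m : Mach K) (S : V → ℕ → Ω → V) (ω : Ω) (s : m.M) : Prop where
  inv : m.Inv s
  pos : ∀ v, (m.cfg s).pos v = S v ((m.cfg s).cnt v) ω
  root : [] ∈ (m.cfg s).vis
  clos : ∀ v ∈ (m.cfg s).vis, ∀ j ≤ (m.cfg s).cnt v, S v j ω ∈ (m.cfg s).vis
  low : ∀ v ∈ (m.cfg s).vis, ∀ j < (m.cfg s).cnt v, (S v j ω).length ≤ K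
  out : ∀ v, v ∉ (m.cfg s).vis → (m.cfg s).cnt v = 0

theorem Good.init (hz : ∀ v ω, S v 0 ω = v) (ω : Ω) : Good m S ω m.s0 where
  inv := m.inv0
  pos := by intro v; rw [m.cfg0]; simp [Cfg.init, hz]
  root := by rw [m.cfg0]; simp [Cfg.init]
  clos := by
    intro v hv j hj
    rw [m.cfg0] at hv hj ⊢
    simp only [Cfg.init, Finset.mem_singleton, Nat.le_zero] at hv hj ⊢
    subst hv hj
    exact hz _ _
  low := by
    intro v hv j hj
    rw [m.cfg0] at hj
    simp [Cfg.init] at hj
  out := by intro v _; rw [m.cfg0]; rfl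

theorem Good.next (hz : ∀ v ω, S v 0 ω = v)
    (hs : ∀ v k ω, S v (k + 1) ω = mv (S v k ω) (ξ v k ω)) {ω : Ω} {s : m.M}
    (h : Good m S ω s) {v : V} (hv : m.pick s = some v) :
    Good m S ω (m.next s (ξ v ((m.cfg s).cnt v) ω)) := by
  set c := ξ v ((m.cfg s).cnt v) ω with hc
  have hcfg := m.cfg_next s v c h.inv hv
  obtain ⟨hvis, hlen⟩ := m.pick_some s v h.inv hv
  have hnew : mv ((m.cfg s).pos v) c = S v ((m.cfg s).cnt v + 1) ω := by
    rw [hs, h.pos v]
  constructor
  · exact m.inv_next s v c h.inv hv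
  · intro u
    rw [hcfg]
    simp only [Cfg.move, Function.update_apply]
    split_ifs with hu
    · subst hu; exact hnew
    · exact h.pos u
  · rw [hcfg]
    exact Finset.mem_insert_of_mem h.root
  · intro u hu j hj
    rw [hcfg] at hu hj ⊢
    simp only [Cfg.move, Function.update_apply, Finset.mem_insert] at hu hj ⊢
    split_ifs at hj with huv
    · subst huv
      rcases Nat.lt_or_ge j ((m.cfg s).cnt u + 1) with hlt | hge
      · exact Or.inr (h.clos u hvis j (by omega))
      · left
        have : j = (m.cfg s).cnt u + 1 := le_antisymm hj hge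
        rw [this, hnew]
    · rcases hu with hu | hu
      · by_cases hin : u ∈ (m.cfg s).vis
        · exact Or.inr (h.clos u hin j hj)
        · have : j = 0 := by rw [h.out u hin] at hj; omega
          subst this
          left
          rw [hz]; exact hu
      · exact Or.inr (h.clos u hu j hj)
  · intro u hu j hj
    rw [hcfg] at hu hj
    simp only [Cfg.move, Function.update_apply, Finset.mem_insert] at hu hj
    split_ifs at hj with huv
    · subst huv
      rcases Nat.lt_or_ge j ((m.cfg s).cnt u) with hlt | hge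
      · exact h.low u hvis j hlt
      · have : j = (m.cfg s).cnt u := by omega
        rw [this, ← h.pos u]; exact hlen
    · rcases hu with hu | hu
      · by_cases hin : u ∈ (m.cfg s).vis
        · exact h.low u hin j hj
        · rw [h.out u hin] at hj; omega
      · exact h.low u hu j hj
  · intro u hu
    rw [hcfg] at hu ⊢
    simp only [Cfg.move, Function.update_apply, Finset.mem_insert, not_or] at hu ⊢
    have huv : u ≠ v := fun e => hu.2 (e ▸ hvis)
    rw [if_neg huv]
    exact h.out u hu.2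

/-- The visits to the root already followed by a step. -/
def Rev (m : Mach K) (S : V → ℕ → Ω → V) (ω : Ω) (s : m.M) : Set (V × ℕ) :=
  {p | p.2 < (m.cfg s).cnt p.1 ∧ S p.1 p.2 ω = []}

theorem Rev_next {ω : Ω} {s : m.M} (h : Good m S ω s) {v : V} (hv : m.pick s = some v) (c : Cc) :
    ((Rev m S ω (m.next s c)).encard : ℝ≥0∞) ≤
      ((Rev m S ω s).encard : ℝ≥0∞) + (if (m.cfg s).pos v = [] then 1 else 0) := by
  have hcfg := m.cfg_next s v c h.inv hv
  split_ifs with h0
  · have hsub : Rev m S ω (m.next s c) ⊆ Rev m S ω s ∪ {(v, (m.cfg s).cnt v)} := by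
      rintro ⟨u, k⟩ ⟨h1, h2⟩
      simp only [hcfg, Cfg.move, Function.update_apply] at h1 h2
      split_ifs at h1 with huv
      · subst huv
        rcases Nat.lt_or_ge k ((m.cfg s).cnt u) with hlt | hge
        · exact Or.inl ⟨hlt, h2⟩
        · right
          have : k = (m.cfg s).cnt u := by omega
          simp [this]
      · exact Or.inl ⟨h1, h2⟩
    have h1 := (Set.encard_le_encard hsub).trans (Set.encard_union_le _ _)
    rw [Set.encard_singleton] at h1
    exact_mod_cast h1
  · have hsub : Rev m S ω (m.next s c) ⊆ Rev m S ω s := by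
      rintro ⟨u, k⟩ ⟨h1, h2⟩
      simp only [hcfg, Cfg.move, Function.update_apply] at h1 h2
      split_ifs at h1 with huv
      · subst huv
        rcases Nat.lt_or_ge k ((m.cfg s).cnt u) with hlt | hge
        · exact ⟨hlt, h2⟩
        · exfalso
          have : k = (m.cfg s).cnt u := by omega
          rw [this, ← h.pos u] at h2
          exact h0 h2
      · exact ⟨h1, h2⟩
    rw [add_zero]
    exact_mod_cast Set.encard_le_encard hsub

/-- The reward of a machine: one for each departure from the root. -/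
noncomputable def rr (m : Mach K) (s : m.M) : ℝ≥0∞ :=
  match m.pick s with
  | none => 0
  | some v => if (m.cfg s).pos v = [] then 1 else 0

theorem halt_or (hz : ∀ v ω, S v 0 ω = v)
    (hs : ∀ v k ω, S v (k + 1) ω = mv (S v k ω) (ξ v k ω)) (ω : Ω) (n : ℕ) :
    ∀ s : m.M, Good m S ω s →
      (∃ s' : m.M, Good m S ω s' ∧ m.pick s' = none ∧
        ((Rev m S ω s').encard : ℝ≥0∞) ≤
          ((Rev m S ω s).encard : ℝ≥0∞) + Rw m ξ (rr m) n s ω) ∨
      Rw m ξ (fun _ => 1) n s ω = n := by
  induction n with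
  | zero => intro s _; right; simp [Rw]
  | succ n ih =>
    intro s hg
    rcases h : m.pick s with _ | v
    · left
      exact ⟨s, hg, h, le_self_add⟩
    · rcases ih _ (hg.next hz hs h) with ⟨s', h1, h2, h3⟩ | h1
      · left
        refine ⟨s', h1, h2, h3.trans ?_⟩
        rw [Rw_some h, ← add_assoc]
        gcongr
        have := Rev_next hg h (ξ v ((m.cfg s).cnt v) ω)
        simpa only [rr, h] using this
      · right
        rw [Rw_some h, h1, add_comm]
        push_cast
        rfl

theorem VK_subset (hz : ∀ v ω, S v 0 ω = v) {ω : Ω} {s : m.M} (h : Good m S ω s)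
    (hp : m.pick s = none) : VK S K ω ⊆ Rev m S ω s := by
  have hlen := m.pick_none s h.inv hp
  have hcnt : ∀ v ∈ (m.cfg s).vis, ∀ k, (∀ j < k, (S v j ω).length ≤ K) → k ≤ (m.cfg s).cnt v := by
    intro v hv k hk
    by_contra hlt
    push Not at hlt
    have h1 := hk _ hlt
    have h2 := hlen v hv
    rw [h.pos v] at h2
    omega
  rintro ⟨v, k⟩ ⟨h1, h2, h3⟩
  have hv : v ∈ ((m.cfg s).vis : Set V) := by
    apply h1
    · exact h.root
    · intro u hu j hj
      exact h.clos u hu j (hcnt u hu j hj)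
  refine ⟨?_, h3⟩
  have := hcnt v hv (k + 1) (fun j hj => h2 j (by simp only; omega))
  simp only
  omega

end path

section halting

/-- All the vertices up to level `K + 1`. -/
noncomputable def Ball (K : ℕ) : Finset V := (List.finite_length_le (Fin 4) (K + 1)).toFinset

theorem mem_Ball {K : ℕ} {v : V} : v ∈ Ball K ↔ v.length ≤ K + 1 := by
  simp [Ball]

/-- The potential which shows that the machine stops. -/
noncomputable def psiN (K : ℕ) (c : Cfg) : ℕ := 2 * ∑ v ∈ Ball K, (K + 1 - (c.pos v).length)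

theorem mv_length_up (x : V) (c : Cc) : (mv x c).length ≤ x.length + 1 := by
  unfold mv
  split_ifs with h h'
  · simp
  · simp; omega
  · simp

theorem sum_mv (K : ℕ) (x : V) (hx : x.length ≤ K) :
    ∑ c : Cc, (K + 1 - (mv x c).length) + 12 ≤ 20 * (K + 1 - x.length) := by
  by_cases h : x = []
  · subst h
    simp only [mv, if_true, List.length_singleton, List.length_nil]
    simp only [Finset.sum_const, Finset.card_univ]
    have : Fintype.card Cc = 20 := by simp [Cc]
    rw [this]
    simp only [smul_eq_mul]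
    omega
  · have hpos : 0 < x.length := List.length_pos_iff.mpr h
    have : ∀ c : Cc, K + 1 - (mv x c).length =
        if c.2 = 0 then K + 2 - x.length else K - x.length := by
      intro c
      unfold mv
      rw [if_neg h]
      split_ifs
      · simp; omega
      · simp
    simp only [this]
    rw [Fintype.sum_prod_type]
    simp only [Fin.sum_univ_five, Finset.sum_const, Finset.card_univ, Fintype.card_fin]
    simp
    omega

theorem psi_drift (K : ℕ) (c : Cfg) (v : V) (hv : v ∈ Ball K) (hlen : (c.pos v).length ≤ K) :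
    ∑ e : Cc, psiN K (c.move v e) + 20 ≤ 20 * psiN K c := by
  have h1 : ∀ e : Cc, psiN K (c.move v e) =
      2 * (K + 1 - (mv (c.pos v) e).length) +
        2 * ∑ u ∈ (Ball K).erase v, (K + 1 - (c.pos u).length) := by
    intro e
    unfold psiN
    rw [← Finset.add_sum_erase _ _ hv, mul_add]
    congr 2
    · simp [Cfg.move]
    · apply Finset.sum_congr rfl
      intro u hu
      have : u ≠ v := Finset.ne_of_mem_erase hu
      simp [Cfg.move, Function.update_apply, this]
  have h2 : psiN K c = 2 * (K + 1 - (c.pos v).length) +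
        2 * ∑ u ∈ (Ball K).erase v, (K + 1 - (c.pos u).length) := by
    unfold psiN
    rw [← Finset.add_sum_erase _ _ hv, mul_add]
  simp only [h1, h2, Finset.sum_add_distrib, Finset.sum_const, Finset.card_univ]
  have h3 : Fintype.card Cc = 20 := by simp [Cc]
  have h4 := sum_mv K (c.pos v) hlen
  rw [h3, ← Finset.mul_sum, smul_eq_mul]
  omega

end halting

theorem R1_holds : R1 := by
  intro K m Ω _ P _ ξ S hM
  -- the machine stops
  have hstop : ∫⁻ ω, ⨆ n, Rw m ξ (fun _ => 1) n m.s0 ω ∂P ≤ (psiN K (m.cfg m.s0) : ℝ≥0∞) := by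
    refine lint_iSup_Rw hM (fun _ => 1) (fun s => (psiN K (m.cfg s) : ℝ≥0∞))
      (fun s => m.Inv s ∧ ∀ x ∈ (m.cfg s).vis, x.length ≤ K + 1) ?_ (fun s h => h.1) ?_ m.s0 ?_
    · rintro s v c ⟨h1, h2⟩ hv
      refine ⟨m.inv_next s v c h1 hv, ?_⟩
      rw [m.cfg_next s v c h1 hv]
      intro x hx
      simp only [Cfg.move, Finset.mem_insert] at hx
      rcases hx with hx | hx
      · rw [hx]
        have := mv_length_up ((m.cfg s).pos v) c
        have := (m.pick_some s v h1 hv).2
        omega
      · exact h2 x hx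
    · rintro s v ⟨h1, h2⟩ hv
      obtain ⟨h3, h4⟩ := m.pick_some s v h1 hv
      have := psi_drift K (m.cfg s) v (mem_Ball.mpr (h2 v h3)) h4
      simp only [m.cfg_next s v _ h1 hv]
      rw [mul_one]
      exact_mod_cast this
    · refine ⟨m.inv0, ?_⟩
      rw [m.cfg0]
      intro x hx
      simp only [Cfg.init, Finset.mem_singleton] at hx
      subst hx
      simp
  have hfin : ∀ᵐ ω ∂P, ⨆ n, Rw m ξ (fun _ => 1) n m.s0 ω < ⊤ := by
    refine ae_lt_top ?_ (ne_top_of_le_ne_top (ENNReal.natCast_ne_top _) hstop)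
    exact Measurable.iSup fun n => (Rw_meas n _ m.inv0).mono (Fut_le hM.meas _) le_rfl
  have hrew : ∫⁻ ω, ⨆ n, Rw m ξ (rr m) n m.s0 ω ∂P ≤ m.Φ m.s0 := by
    refine lint_iSup_Rw hM (rr m) m.Φ m.Inv m.inv_next (fun s h => h) ?_ m.s0 m.inv0
    intro s v hs hv
    have := m.drift s v hs hv
    simpa only [rr, hv] using this
  refine le_trans (lintegral_mono_ae ?_) hrew
  filter_upwards [hfin] with ω hω
  obtain ⟨n, hn⟩ : ∃ n : ℕ, Rw m ξ (fun _ => 1) n m.s0 ω ≠ n := by
    by_contra hcon
    push Not at hcon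
    have : ⨆ n, Rw m ξ (fun _ => 1) n m.s0 ω = ⊤ := by
      simp only [hcon]
      exact ENNReal.iSup_natCast
    rw [this] at hω
    exact lt_irrefl _ hω
  rcases halt_or hM.zero hM.succ ω n m.s0 (Good.init hM.zero ω) with ⟨s', h1, h2, h3⟩ | h1
  · have h4 : ((Rev m S ω m.s0).encard : ℝ≥0∞) = 0 := by
      have : Rev m S ω m.s0 = ∅ := by
        ext ⟨u, k⟩
        simp [Rev, m.cfg0, Cfg.init]
      rw [this]; simp
    rw [h4, zero_add] at h3
    have h5 : ((VK S K ω).encard : ℝ≥0∞) ≤ ((Rev m S ω s').encard : ℝ≥0∞) := by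
      exact_mod_cast Set.encard_le_encard (VK_subset hM.zero h1 h2)
    exact h5.trans (h3.trans (le_iSup (fun n => Rw m ξ (rr m) n m.s0 ω) n))
  · exact absurd h1 hn

end Pool.Agent.H73.Frog
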